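import Pool.Agent.N625.PT.X8
import Pool.Agent.Run7.h672.XC.X7
import Pool.Agent.Run7.h414.DP.XR

/-!
# Simultaneous representations of all types `(a, 0)`, `a ≤ A`, of almost all multiples of random multiples of a small
# primorial, for random integers with determinantal digits

The digits of the random integer `v` are given by a determinantal random set `S` of positions (a determinantal point process
with an arbitrary Hermitian kernel): the digit number `i` is `y i` if `i ∈ S` and `x i ≠ y i` otherwise. Examples (their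
existence is not used and not formalised): the edges of a uniform spanning tree of a graph with `k` edges; stationary
determinantal processes with any symbol which is not almost everywhere `0` or almost everywhere `1` (for example the discrete
sine process with any density); independent digits.

Definitions used (in `Pool.Agent.Run7.h414.DP.Law` and `Pool.Agent.Run7.h414.DP.Fam`): `DetLaw`, `GoodPos`, `DetDigits`
(used with `t = 0`: `0 ≤ p v ≤ μ v` with the law `μ` of an integer with determinantal digits).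

Method: the characteristic function is `det (1 + D A)`; the inequality `|det N|² ≤ exp (tr N* N - k)` for
`N = 1 + B D B*`, `A = B* B`, bounds it by `exp (- E)` with an energy `E` which is at least a constant times the number of
the places where the frequency is far from the rational numbers with small denominators. With this input the sieve and the
circle method of the starting library for exchangeable blocks (`Pool.Agent.N625.PT`, in the form for classes of laws of
`Pool.Agent.Run7.h672.XC`) go through.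
-/

set_option autoImplicit false

open Finset
open Pool.Agent.Run7.h414.DP (DC DC_sum DC_nonneg DetDigits fam_dc dc_rcls)

namespace Pool.Agent.Results.MP_e3f158_nt.DeterminantalMultiples

/-- The `i`-th `a`-prime: the `(a + 1)`-fold iterate of `k ↦ k`-th prime, applied to `i`. -/
noncomputable def ip (a i : ℕ) : ℕ := Nat.iterate (fun k : ℕ => Nat.nth Nat.Prime (k - 1)) (a + 1) i

open Classical in
/-- The `a`-primes `≤ x`. -/
noncomputable def IPs (a x : ℕ) : Finset ℕ := (Icc 1 x).filter (fun u => ∃ i : ℕ, 0 < i ∧ ip a i = u)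

/-- the product of `1 - 1/q` over the primes `q ≤ y` -/
noncomputable def V (y : ℕ) : ℝ := ∏ q ∈ (Icc 1 y).filter Nat.Prime, (1 - 1 / (q : ℝ))

/-- the multiple of the product of the primes `≤ y` given by the integers `h` and `c + κ v` -/
def Nv (y h : ℕ) (c κ : ℤ) (v : ℕ) : ℤ := ((primorial y * h : ℕ) : ℤ) * (c + κ * v)

/-- the `u ∈ S` such that `n - u` is prime -/
def Rep (S : Finset ℕ) (n : ℤ) : Finset ℕ := S.filter (fun u : ℕ => (n - u).toNat.Prime)

open Classical in
/-- the law itself -/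
theorem main : ∀ b L : ℕ, 2 ≤ b → ∀ η : ℝ, 0 < η → ∀ κ : ℤ, κ ≠ 0 →
    ∀ (B J A C : ℕ) (ε : ℝ), 0 < ε → ε ≤ 1 → ∃ K₀ : ℕ, ∀ K₁ : ℕ, ∃ k₀ : ℕ, ∀ k : ℕ, k₀ ≤ k →
    ∀ p : ℕ → ℝ, DC b L η k p → ∀ y : ℕ, K₀ * Real.log k ≤ y → y ≤ K₁ * Real.log k →
    ∀ c : ℤ, |c| ≤ B * (b : ℤ) ^ k → ∀ H : ℕ, H ≤ k ^ J → ∀ X : ℕ, b ^ k ≤ X * k ^ C → X ≤ b ^ k * k ^ C →
      ∑ v ∈ range (b ^ k), (if (((Icc 1 H).filter (fun h => ¬ ((X : ℤ) < Nv y h c κ v → ∀ a ≤ A,
        (1 - ε) * ((IPs a X).card / (V y * (k * Real.log b))) ≤ ((Rep (IPs a X) (Nv y h c κ v)).card : ℝ)))).card : ℝ) ≤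
          ε * H then 0 else p v) ≤ ε := by
  intro b L hb η hη κ hκ B J A C ε hε hε1
  have hcls := dc_rcls b L hb η hη
  obtain ⟨ε', hε'⟩ : ∃ ε' : ℝ, ε' = ε ^ 2 / (A + 1) := ⟨_, rfl⟩
  have hA : (0 : ℝ) < A + 1 := by positivity
  have hA1 : (1 : ℝ) ≤ A + 1 := by
    have : (0 : ℝ) ≤ A := Nat.cast_nonneg A
    linarith
  have he0 : 0 < ε' := by rw [hε']; positivity
  have hε2 : ε ^ 2 ≤ ε := by nlinarith
  have hee : ε' ≤ ε := by
    rw [hε']
    exact (div_le_self (by positivity) hA1).trans hε2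
  have h := fun a : ℕ => Pool.Agent.Run7.h672.XC.dense_sum hcls κ hκ B J (2 * (a + 1) + 1) C ε' he0 (hee.trans hε1)
  choose K₀ hK₀ using h
  refine ⟨(range (A + 1)).sup K₀, fun K₁ => ?_⟩
  have h := fun a : ℕ => hK₀ a K₁
  choose x₀ hx₀ using h
  have h := fun a : ℕ => Pool.Agent.N625.PT.ip_dense b C a hb
  choose x₁ hx₁ using h
  refine ⟨max (max ((range (A + 1)).sup x₀) ((range (A + 1)).sup x₁)) 1, fun k hk p hp y hy1 hy2 c hc H hHJ X hX1 hX2 => ?_⟩
  have b1 : (range (A + 1)).sup x₀ ≤ k := by omega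
  have b2 : (range (A + 1)).sup x₁ ≤ k := by omega
  have b3 : 1 ≤ k := by omega
  have hkr : (1 : ℝ) ≤ k := by exact_mod_cast b3
  have hlk : 0 ≤ Real.log k := Real.log_nonneg hkr
  have hb1 : (1 : ℝ) < b := by exact_mod_cast (by omega : 1 < b)
  have hlogb : 0 < Real.log b := Real.log_pos hb1
  have hflex := hp
  have hVy : 0 < V y := Pool.Agent.H373R2.T7.Vz_pos y
  obtain ⟨Bd, hBd⟩ : ∃ Bd : ℕ → ℕ → ℕ → Prop, ∀ a h v, Bd a h v ↔ ((X : ℤ) < Nv y h c κ v ∧
    ((Rep (IPs a X) (Nv y h c κ v)).card : ℝ) < (1 - ε) * ((IPs a X).card / (V y * (k * Real.log b)))) := ⟨_, fun _ _ _ => Iff.rfl⟩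
  have key : ∀ a ∈ range (A + 1), ∀ h ∈ Icc 1 H, ∑ v ∈ range (b ^ k), (if Bd a h v then p v else 0) ≤ ε' := by
    intro a ha h hh
    rw [mem_Icc] at hh
    have h1 := hx₀ a k ((Finset.le_sup ha).trans b1) p hflex y (by
      refine le_trans ?_ hy1
      apply mul_le_mul_of_nonneg_right _ hlk
      exact_mod_cast Finset.le_sup ha) hy2 c hc h hh.1 (hh.2.trans hHJ) X hX1 hX2 (IPs a X)
      (Pool.Agent.N625.PT.IPs_sub a X) (Pool.Agent.N625.PT.IPs_prime a X) (hx₁ a k ((Finset.le_sup ha).trans b2) X hX1 hX2)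
    refine le_trans ?_ h1
    apply sum_le_sum
    intro v _
    by_cases hv : Bd a h v
    · rw [if_pos hv, if_pos]
      rw [hBd] at hv
      refine ⟨hv.1, lt_of_lt_of_le (lt_of_eq_of_lt ?_ hv.2) ?_⟩
      · congr!
      · apply mul_le_mul_of_nonneg_right (by linarith)
        exact div_nonneg (Nat.cast_nonneg _) (mul_nonneg hVy.le (by positivity))
    · rw [if_neg hv]
      split_ifs
      · exact DC_nonneg hp v
      · exact le_rfl
  -- Markov
  obtain ⟨cnt, hcnt⟩ : ∃ cnt : ℕ → ℝ, ∀ v, cnt v = (((Icc 1 H).filter (fun h => ¬ ((X : ℤ) < Nv y h c κ v → ∀ a ≤ A,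
        (1 - ε) * ((IPs a X).card / (V y * (k * Real.log b))) ≤ ((Rep (IPs a X) (Nv y h c κ v)).card : ℝ)))).card : ℝ) :=
    ⟨_, fun _ => rfl⟩
  have hcle : ∀ v, cnt v ≤ ∑ h ∈ Icc 1 H, ∑ a ∈ range (A + 1), (if Bd a h v then (1 : ℝ) else 0) := by
    intro v
    rw [hcnt, card_eq_sum_ones, Nat.cast_sum, sum_filter]
    apply sum_le_sum
    intro h _
    have hnn : ∀ a ∈ range (A + 1), (0 : ℝ) ≤ (if Bd a h v then (1 : ℝ) else 0) := by
      intro a _
      split_ifs <;> norm_num
    by_cases hq : (X : ℤ) < Nv y h c κ v → ∀ a ≤ A,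
        (1 - ε) * ((IPs a X).card / (V y * (k * Real.log b))) ≤ ((Rep (IPs a X) (Nv y h c κ v)).card : ℝ)
    · rw [if_neg (not_not.2 hq)]
      exact sum_nonneg hnn
    · rw [if_pos hq]
      push Not at hq
      obtain ⟨g1, a, ha, g2⟩ := hq
      have h1 : (if Bd a h v then (1 : ℝ) else 0) = 1 := by
        rw [if_pos]
        rw [hBd]
        exact ⟨g1, g2⟩
      have := single_le_sum hnn (mem_range.2 (Nat.lt_succ_of_le ha))
      rw [h1] at this
      simpa using this
  have hexp : ∑ v ∈ range (b ^ k), p v * cnt v ≤ H * ε ^ 2 := by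
    calc ∑ v ∈ range (b ^ k), p v * cnt v ≤ ∑ v ∈ range (b ^ k), ∑ h ∈ Icc 1 H, ∑ a ∈ range (A + 1), (if Bd a h v then p v else 0) := by
          apply sum_le_sum
          intro v _
          refine (mul_le_mul_of_nonneg_left (hcle v) (DC_nonneg hp v)).trans (le_of_eq ?_)
          rw [mul_sum]
          apply sum_congr rfl
          intro h _
          rw [mul_sum]
          apply sum_congr rfl
          intro a _
          split_ifs <;> simp
      _ = ∑ h ∈ Icc 1 H, ∑ a ∈ range (A + 1), ∑ v ∈ range (b ^ k), (if Bd a h v then p v else 0) := by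
          rw [sum_comm]
          apply sum_congr rfl
          intro h _
          rw [sum_comm]
      _ ≤ ∑ h ∈ Icc 1 H, ∑ a ∈ range (A + 1), ε' := by
          apply sum_le_sum
          intro h hh
          exact sum_le_sum fun a ha => key a ha h hh
      _ = H * ε ^ 2 := by
          rw [sum_const, sum_const, card_range, Nat.card_Icc, Nat.add_sub_cancel, hε']
          simp only [nsmul_eq_mul]
          push_cast
          field_simp
  rcases Nat.eq_zero_or_pos H with hH | hH
  · have : ∑ v ∈ range (b ^ k), (if cnt v ≤ ε * H then 0 else p v) = 0 := by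
      apply sum_eq_zero
      intro v _
      rw [if_pos]
      rw [hcnt, hH]
      simp
    simp_rw [hcnt] at this
    rw [this]
    exact hε.le
  · have hH0 : (0 : ℝ) < H := by exact_mod_cast hH
    have h1 : (∑ v ∈ range (b ^ k), (if cnt v ≤ ε * H then 0 else p v)) * (ε * H) ≤ ε * (ε * H) := by
      refine le_trans ?_ (hexp.trans (le_of_eq (by ring)))
      rw [sum_mul]
      apply sum_le_sum
      intro v _
      have hc0 : 0 ≤ cnt v := by rw [hcnt]; exact Nat.cast_nonneg _
      split_ifs with hv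
      · rw [zero_mul]
        exact mul_nonneg (DC_nonneg hp v) hc0
      · push Not at hv
        exact mul_le_mul_of_nonneg_left hv.le (DC_nonneg hp v)
    have h2 := le_of_mul_le_mul_right h1 (by positivity)
    simp_rw [hcnt] at h2
    exact h2

open Classical in
/-- Let `b ≥ 2`, `L` and `η > 0`, and let `v < b ^ k` be the random integer with `k` determinantal digits in base `b`
(`DetDigits b L η 0 k p`). Let `y` be between `K₀ log k` and `K₁ log k`, `M` the product of the primes `≤ y`, and `X` an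
integer with `b ^ k ≤ X k ^ C`, `X ≤ b ^ k k ^ C`. Then for all `|c| ≤ B b ^ k` and all `H ≤ k ^ J`, up to a probability of at
most `ε`, all but at most `ε H` of the multiples `N = h M (c + κ v)`, `1 ≤ h ≤ H`, have the following property: if `N > X`,
then `N` has for EVERY `a ≤ A` at least `(1 - ε) #U / (V y log b ^ k)` representations `N = u + q`, `u ∈ U` and `q` a prime,
where `U` is the set of all `a`-primes `u ≤ X`. -/
theorem result : ∀ b L : ℕ, 2 ≤ b → ∀ η : ℝ, 0 < η → ∀ κ : ℤ, κ ≠ 0 →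
    ∀ (B J A C : ℕ) (ε : ℝ), 0 < ε → ε ≤ 1 → ∃ K₀ : ℕ, ∀ K₁ : ℕ, ∃ k₀ : ℕ, ∀ k : ℕ, k₀ ≤ k →
    ∀ p : ℕ → ℝ, DetDigits b L η 0 k p → ∀ y : ℕ, K₀ * Real.log k ≤ y → y ≤ K₁ * Real.log k →
    ∀ c : ℤ, |c| ≤ B * (b : ℤ) ^ k → ∀ H : ℕ, H ≤ k ^ J → ∀ X : ℕ, b ^ k ≤ X * k ^ C → X ≤ b ^ k * k ^ C →
      ∑ v ∈ range (b ^ k), (if (((Icc 1 H).filter (fun h => ¬ ((X : ℤ) < Nv y h c κ v → ∀ a ≤ A,
        (1 - ε) * ((IPs a X).card / (V y * (k * Real.log b))) ≤ ((Rep (IPs a X) (Nv y h c κ v)).card : ℝ)))).card : ℝ) ≤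
          ε * H then 0 else p v) ≤ ε := by
  intro b L hb η hη κ hκ B J A C ε hε hε1
  obtain ⟨K₀, h⟩ := main b L hb η hη κ hκ B J A C ε hε hε1
  refine ⟨K₀, fun K₁ => ?_⟩
  obtain ⟨k₀, h⟩ := h K₁
  refine ⟨k₀, fun k hk p hp y hy1 hy2 c hc H hH X hX1 hX2 => ?_⟩
  obtain ⟨μ, hμ, hpμ⟩ := fam_dc hp
  refine le_trans (sum_le_sum fun v _ => ?_) (h k hk μ hμ y hy1 hy2 c hc H hH X hX1 hX2)
  have h2 := (hpμ v).2
  rw [pow_zero, one_mul] at h2
  split_ifs
  · exact le_rfl
  · exact h2

end Pool.Agent.Results.MP_e3f158_nt.DeterminantalMultiples
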