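import Pool.Agent.N625.PT.X8
import Pool.Agent.Run7.h927.SV.X7
import Pool.Agent.Run7.h927.SV.M

/-!
# All types of representations of random multiples of a small primorial at once: walks, nested words and random fields of digits

The random integer `v` has `k` digits in base `b`, and its digits (1) are the labels of a walk between two vertices of a
graph, which may be infinite, for example of the Cayley graph of a group (then these are the integers whose digits spell a
given element of the group; such a set can contain as few as `N ^ ε` integers below `N = b ^ k`), or (2) form a correctly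
nested word over an alphabet of opening, closing and neutral digits, or (3) form a Markov random field on an arbitrary
graph of positions of bounded degree.

Method: the exponential sums of these three kinds of distributions decay exponentially in the number of the good positions of
the frequency (starting files `Pool.Agent.N625.GW`, `Pool.Agent.N625.DY` of helper625, `Pool.Agent.N213.GF` of helper213;
put into this form in `Pool.Agent.Run7.h927.SV`). Hence the random integers are equidistributed in the classes modulo the
products of primes which do not divide a fixed number, a sieve applies, and all the multiples have a thin large spectrum.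
The argument of the starting files for digits whose blocks can be exchanged (`Pool.Agent.N625.PT.X1`, ..., helper625) then
carries over (`Pool.Agent.Run7.h927.SV.X2`, ...).

Examples of random fields, proved in `Pool.Agent.N213.GF.E` and `Pool.Agent.N213.GF.F`: the uniform distribution on the
solutions of local constraints with flexible digits on a graph of positions with degrees at most `Δ`, with
`η = 1 / b ^ (Δ + 1)` (`unif_field`); in particular the integers whose nonzero digits form an independent set of the graph
(`indep_local`), and, for `b ≥ Δ + 2`, the integers whose digits are a proper colouring of the graph (`colour_local`).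

`∑ v ∈ range (b ^ k), (if P v then p v else 0)` is the probability that the random integer `v < b ^ k` with the
distribution `p` has the property `P`.
-/

set_option autoImplicit false

open Finset

namespace Pool.Agent.Results.MP_e3f158_nt.DigitLawMultiples

/-- The digits `a < b` act on the set `X` of the vertices: an edge with the label `a` leads from `x` to `y` if
`δ x a = some y` (at most one edge with the label `a` starts at `x`). The number of the edges from `x` to `y` equals the
number of the edges from `y` to `x`, and at least two edges start at every vertex. The graph may be infinite. -/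
structure Graph {X : Type} (b : ℕ) (δ : X → ℕ → Option X) : Prop where
  symm : ∀ x y : X, {a : ℕ | a < b ∧ δ x a = some y}.ncard = {a : ℕ | a < b ∧ δ y a = some x}.ncard
  two : ∀ x : X, ∃ a a' : ℕ, a < a' ∧ a' < b ∧ (δ x a).isSome ∧ (δ x a').isSome

open Classical in
/-- The integers `v < b ^ k` whose `k` digits in base `b`, from the most significant to the least significant one (the
digit number `i`, `0 ≤ i < k`, from the left is `v / b ^ (k - 1 - i) % b`), are the labels of a walk from `x` to `y`. -/
noncomputable def walks {X : Type} (b : ℕ) (δ : X → ℕ → Option X) (k : ℕ) (x y : X) : Finset ℕ :=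
  (range (b ^ k)).filter fun v =>
    ((List.range k).map fun i => v / b ^ (k - 1 - i) % b).foldl (fun s a => s.bind fun z => δ z a) (some x) = some y

/-- `P` is a set of pairs of an opening digit and a closing digit which match each other, `E` is a set of neutral
digits; the digits are smaller than `b`, no digit plays two of the three roles, and there is at least one pair.
(An opening digit can match several closing digits, and conversely.) -/
structure Alphabet (b : ℕ) (P : Finset (ℕ × ℕ)) (E : Finset ℕ) : Prop where
  lt : ∀ p ∈ P, p.1 < b ∧ p.2 < b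
  ne : ∀ p ∈ P, ∀ p' ∈ P, p.1 ≠ p'.2
  neutral : ∀ a ∈ E, a < b ∧ ∀ p ∈ P, a ≠ p.1 ∧ a ≠ p.2
  nonempty : P.Nonempty

/-- The correctly nested words: the empty word; a neutral digit followed by a correctly nested word; and `o u c w`,
where `u` and `w` are correctly nested words and the opening digit `o` matches the closing digit `c`. -/
inductive Balanced (P : Finset (ℕ × ℕ)) (E : Finset ℕ) : List ℕ → Prop
  | nil : Balanced P E []
  | neutral (a : ℕ) (w : List ℕ) : a ∈ E → Balanced P E w → Balanced P E (a :: w)
  | pair (o c : ℕ) (u w : List ℕ) : (o, c) ∈ P → Balanced P E u → Balanced P E w → Balanced P E (o :: (u ++ c :: w))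

open Classical in
/-- The integers `v < b ^ k` whose `k` digits in base `b`, from the most significant to the least significant one (the
digit number `i`, `0 ≤ i < k`, from the left is `v / b ^ (k - 1 - i) % b`), form a correctly nested word. -/
noncomputable def brackets (b : ℕ) (P : Finset (ℕ × ℕ)) (E : Finset ℕ) (k : ℕ) : Finset ℕ :=
  (range (b ^ k)).filter fun v => Balanced P E ((List.range k).map fun i => v / b ^ (k - 1 - i) % b)

/-- The digit of `v` at the position `i` in base `b` (the position `0` is the least significant one). -/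
def dig (b v i : ℕ) : ℕ := v / b ^ i % b

/-- The integer which has the digits of `v` at the positions in `S` and the digits of `w` at the other positions below `k`. -/
def splice (b k : ℕ) (S : Finset ℕ) (v w : ℕ) : ℕ := ∑ i ∈ range k, (if i ∈ S then dig b v i else dig b w i) * b ^ i

/-- `v` and `w` have the same digits outside the set `S` of positions. -/
def Off (b : ℕ) (S : Finset ℕ) (v w : ℕ) : Prop := ∀ i, i ∉ S → dig b v i = dig b w i

open Classical in
/-- The closed neighbourhood of the position `i` in the graph `A` on the positions `0, …, k - 1`. -/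
noncomputable def nb (k : ℕ) (A : ℕ → ℕ → Prop) (i : ℕ) : Finset ℕ := (range k).filter fun j => j = i ∨ A i j

open Classical in
/-- The total weight of the integers below `b ^ k` which have the same digits as `v` outside `S`. -/
noncomputable def mass (b k : ℕ) (p : ℕ → ℝ) (S : Finset ℕ) (v : ℕ) : ℝ :=
  ∑ w ∈ (range (b ^ k)).filter (fun w => Off b S w v), p w

/-- The digits of a random integer `v < b ^ k` (with the probabilities `p v`) form a Markov random field on a graph `A` of
positions with degrees at most `Δ` (the Markov property: for every set `S` of positions and all `v`, `w` which have the same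
digits at the positions outside `S` adjacent to `S`, the product `p v * p w` does not change if `v` and `w` exchange their
digits in `S`), and each digit is flexible: for every `v` with `p v ≠ 0` and every position `i`, there are `x` and `y` which
have the same digits as `v` outside the closed neighbourhood of `i`, which differ from each other exactly at the position
`i`, and whose conditional probabilities, given the digits outside this neighbourhood, are at least `η`. -/
structure Field (b k Δ : ℕ) (η : ℝ) (A : ℕ → ℕ → Prop) (p : ℕ → ℝ) : Prop where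
  symm : ∀ i j, A i j → A j i
  degree : ∀ i < k, (nb k A i).card ≤ Δ + 1
  nonneg : ∀ v, 0 ≤ p v
  sum : ∑ v ∈ range (b ^ k), p v = 1
  markov : ∀ S : Finset ℕ, ∀ v < b ^ k, ∀ w < b ^ k, (∀ i ∈ S, ∀ j < k, j ∉ S → A i j → dig b v j = dig b w j) →
    p v * p w = p (splice b k S v w) * p (splice b k S w v)
  flexible : ∀ v < b ^ k, p v ≠ 0 → ∀ i < k, ∃ x < b ^ k, ∃ y < b ^ k, Off b (nb k A i) x v ∧ Off b {i} y x ∧
    dig b y i ≠ dig b x i ∧ η * mass b k p (nb k A i) v ≤ p x ∧ η * mass b k p (nb k A i) v ≤ p y

open Classical in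
/-- The uniform distribution on the finite set `S`. -/
noncomputable def uniform (S : Finset ℕ) (v : ℕ) : ℝ := if v ∈ S then 1 / (S.card : ℝ) else 0

/-- The families of distributions of a random integer `v < b ^ k` which are considered here (`𝓕 k p` means that the
distribution `p` belongs to the family).
* `walks`: the uniform distribution on the integers whose `k` digits are the labels of a walk from `x₀` to some vertex `y`,
  where the number of the closed walks of length `2n` at `x₀` is at most `ρ ^ (2n)` for all `n`, and the number of the walks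
  of length `k` from `x₀` to `y` is at least `ρ ^ k / k ^ D` (all vertices `y` with this property are allowed);
* `words`: the uniform distribution on the integers whose `k` digits form a correctly nested word;
* `fields`: the digits form a Markov random field with flexible digits, on any graph of positions with degrees at most `Δ`. -/
inductive Law (b : ℕ) : (ℕ → (ℕ → ℝ) → Prop) → Prop
  | walks {X : Type} (δ : X → ℕ → Option X) (x₀ : X) (ρ : ℝ) (D : ℕ) : Graph b δ → 0 < ρ →
      (∀ n : ℕ, ((walks b δ (2 * n) x₀ x₀).card : ℝ) ≤ ρ ^ (2 * n)) →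
      Law b fun k p => ∃ y : X, ρ ^ k ≤ (k : ℝ) ^ D * (walks b δ k x₀ y).card ∧ p = uniform (walks b δ k x₀ y)
  | words (P : Finset (ℕ × ℕ)) (E : Finset ℕ) : Alphabet b P E →
      Law b fun k p => (brackets b P E k).Nonempty ∧ p = uniform (brackets b P E k)
  | fields (Δ : ℕ) (η : ℝ) : 2 ≤ b → 0 < η → Law b fun k p => ∃ A : ℕ → ℕ → Prop, Field b k Δ η A p


/-- The `i`-th `a`-prime: the `(a + 1)`-fold iterate of `k ↦ k`-th prime, applied to `i`. -/
noncomputable def ip (a i : ℕ) : ℕ := Nat.iterate (fun k : ℕ => Nat.nth Nat.Prime (k - 1)) (a + 1) i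

open Classical in
/-- The `a`-primes `≤ x`. -/
noncomputable def IPs (a x : ℕ) : Finset ℕ := (Icc 1 x).filter (fun u => ∃ i : ℕ, 0 < i ∧ ip a i = u)

/-- the product of `1 - 1/q` over the primes `q ≤ y` -/
noncomputable def V (y : ℕ) : ℝ := ∏ q ∈ (Icc 1 y).filter Nat.Prime, (1 - 1 / (q : ℝ))

/-- the multiple of the product of the primes `≤ y` given by the integers `h` and `c + κ v` -/
def Nv (y h : ℕ) (c κ : ℤ) (v : ℕ) : ℤ := ((primorial y * h : ℕ) : ℤ) * (c + κ * v)

/-- the `u ∈ S` such that `n - u` is prime -/
def Rep (S : Finset ℕ) (n : ℤ) : Finset ℕ := S.filter (fun u : ℕ => (n - u).toNat.Prime)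

lemma bal_iff (P : Finset (ℕ × ℕ)) (E : Finset ℕ) (w : List ℕ) : Balanced P E w ↔ Pool.Agent.N625.DY.Balanced P E w := by
  constructor
  · intro h
    induction h with
    | nil => exact .nil
    | neutral a w h1 _ ih => exact .neutral a w h1 ih
    | pair o c u w h1 _ _ ih1 ih2 => exact .pair o c u w h1 ih1 ih2
  · intro h
    induction h with
    | nil => exact .nil
    | neutral a w h1 _ ih => exact .neutral a w h1 ih
    | pair o c u w h1 _ _ ih1 ih2 => exact .pair o c u w h1 ih1 ih2

lemma brackets_eq (b : ℕ) (P : Finset (ℕ × ℕ)) (E : Finset ℕ) (k : ℕ) :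
    brackets b P E k = Pool.Agent.N625.DY.brackets b P E k := by
  classical
  unfold brackets Pool.Agent.N625.DY.brackets Pool.Agent.N625.DY.word
  ext v
  rw [mem_filter, mem_filter, bal_iff]

lemma field_conv {b k Δ : ℕ} {η : ℝ} {A : ℕ → ℕ → Prop} {p : ℕ → ℝ} (h : Field b k Δ η A p) :
    Pool.Agent.N213.GF.Field b k Δ η A p :=
  ⟨h.symm, h.degree, h.nonneg, h.sum, h.markov, h.flexible⟩

theorem siev_of {b : ℕ} {𝓕 : ℕ → (ℕ → ℝ) → Prop} (h : Law b 𝓕) : ∃ L, Pool.Agent.Run7.h927.SV.Siev b L 𝓕 := by
  rcases h with ⟨δ, x₀, ρ, D, hG, hρ, hR⟩ | ⟨P, E, hA⟩ | ⟨Δ, η, hb, hη⟩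
  · refine Pool.Agent.Run7.h927.SV.w_siev (δ := δ) ⟨hG.symm, hG.two⟩ x₀ ρ hρ hR D _ ?_
    rintro k p ⟨y, h1, rfl⟩
    exact ⟨y, h1, rfl⟩
  · have hA' : Pool.Agent.N625.DY.Alphabet b P E := ⟨hA.lt, hA.ne, hA.neutral, hA.nonempty⟩
    refine Pool.Agent.Run7.h927.SV.br_siev hA' _ ?_
    rintro k p ⟨h1, rfl⟩
    rw [brackets_eq] at h1 ⊢
    refine ⟨?_, rfl⟩
    by_contra h2
    rw [Pool.Agent.N625.DY.br_empty k h2] at h1
    exact Finset.not_nonempty_empty h1
  · refine Pool.Agent.Run7.h927.SV.gf_siev b Δ η hb hη _ ?_
    rintro k p ⟨A, hF⟩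
    exact ⟨A, field_conv hF⟩

open Classical in
/-- Let `𝓕` be one of the families of distributions in `Law b` (digits which label walks in a graph; correctly nested words;
Markov random fields), let `v < b ^ k` be a random integer whose distribution `p` belongs to the family, let `y` be between
`K₀ log k` and `K₁ log k`, `M` the product of the primes `≤ y`, and `X` an integer with `b ^ k ≤ X k ^ C`,
`X ≤ b ^ k k ^ C`. Then for all `|c| ≤ B b ^ k` and all `H ≤ k ^ J`, with a probability of at least `1 - ε` all but at most
`ε H` of the multiples `N = h M (c + κ v)`, `1 ≤ h ≤ H`, have the following property: if `N > X`, then `N` has for EVERY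
`a ≤ A` at least `(1 - ε) #U / (V y log b ^ k)` representations `N = u + q`, `u ∈ U` and `q` a prime, where `U` is the set of
all `a`-primes `u ≤ X`. -/
theorem result : ∀ (b : ℕ) (𝓕 : ℕ → (ℕ → ℝ) → Prop), Law b 𝓕 → ∀ κ : ℤ, κ ≠ 0 →
    ∀ (B J A C : ℕ) (ε : ℝ), 0 < ε → ε ≤ 1 → ∃ K₀ : ℕ, ∀ K₁ : ℕ, ∃ k₀ : ℕ, ∀ k : ℕ, k₀ ≤ k →
    ∀ p : ℕ → ℝ, 𝓕 k p → ∀ y : ℕ, K₀ * Real.log k ≤ y → y ≤ K₁ * Real.log k →
    ∀ c : ℤ, |c| ≤ B * (b : ℤ) ^ k → ∀ H : ℕ, H ≤ k ^ J → ∀ X : ℕ, b ^ k ≤ X * k ^ C → X ≤ b ^ k * k ^ C →
      ∑ v ∈ range (b ^ k), (if (((Icc 1 H).filter (fun h => ¬ ((X : ℤ) < Nv y h c κ v → ∀ a ≤ A,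
        (1 - ε) * ((IPs a X).card / (V y * (k * Real.log b))) ≤ ((Rep (IPs a X) (Nv y h c κ v)).card : ℝ)))).card : ℝ) ≤
          ε * H then 0 else p v) ≤ ε := by
  intro b 𝓕 hF κ hκ B J A C ε hε hε1
  obtain ⟨L, hS⟩ := siev_of hF
  have hb := hS.two
  obtain ⟨ε', hε'⟩ : ∃ ε' : ℝ, ε' = ε ^ 2 / (A + 1) := ⟨_, rfl⟩
  have hA : (0 : ℝ) < A + 1 := by positivity
  have hA1 : (1 : ℝ) ≤ A + 1 := by
    have : (0 : ℝ) ≤ A := Nat.cast_nonneg A
    linarith
  have he0 : 0 < ε' := by rw [hε']; positivity
  have hε2 : ε ^ 2 ≤ ε := by nlinarith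
  have hee : ε' ≤ ε := by
    rw [hε']
    exact (div_le_self (by positivity) hA1).trans hε2
  have h := fun a : ℕ => Pool.Agent.Run7.h927.SV.dense_sum hS κ hκ B J (2 * (a + 1) + 1) C ε' he0 (hee.trans hε1)
  choose K₀ hK₀ using h
  refine ⟨(range (A + 1)).sup K₀, fun K₁ => ?_⟩
  have h := fun a : ℕ => hK₀ a K₁
  choose x₀ hx₀ using h
  have h := fun a : ℕ => Pool.Agent.N625.PT.ip_dense b C a hb
  choose x₁ hx₁ using h
  refine ⟨max (max ((range (A + 1)).sup x₀) ((range (A + 1)).sup x₁)) 1, fun k hk p hp y hy1 hy2 c hc H hHJ X hX1 hX2 => ?_⟩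
  have b1 : (range (A + 1)).sup x₀ ≤ k := by omega
  have b2 : (range (A + 1)).sup x₁ ≤ k := by omega
  have b3 : 1 ≤ k := by omega
  have hkr : (1 : ℝ) ≤ k := by exact_mod_cast b3
  have hlk : 0 ≤ Real.log k := Real.log_nonneg hkr
  have hb1 : (1 : ℝ) < b := by exact_mod_cast (by omega : 1 < b)
  have hlogb : 0 < Real.log b := Real.log_pos hb1
  have hflex := hp
  have hVy : 0 < V y := Pool.Agent.H373R2.T7.Vz_pos y
  obtain ⟨Bd, hBd⟩ : ∃ Bd : ℕ → ℕ → ℕ → Prop, ∀ a h v, Bd a h v ↔ ((X : ℤ) < Nv y h c κ v ∧
    ((Rep (IPs a X) (Nv y h c κ v)).card : ℝ) < (1 - ε) * ((IPs a X).card / (V y * (k * Real.log b)))) := ⟨_, fun _ _ _ => Iff.rfl⟩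
  have key : ∀ a ∈ range (A + 1), ∀ h ∈ Icc 1 H, ∑ v ∈ range (b ^ k), (if Bd a h v then p v else 0) ≤ ε' := by
    intro a ha h hh
    rw [mem_Icc] at hh
    have h1 := hx₀ a k ((Finset.le_sup ha).trans b1) p hflex y (by
      refine le_trans ?_ hy1
      apply mul_le_mul_of_nonneg_right _ hlk
      exact_mod_cast Finset.le_sup ha) hy2 c hc h hh.1 (hh.2.trans hHJ) X hX1 hX2 (IPs a X)
      (Pool.Agent.N625.PT.IPs_sub a X) (Pool.Agent.N625.PT.IPs_prime a X) (hx₁ a k ((Finset.le_sup ha).trans b2) X hX1 hX2)
    refine le_trans ?_ h1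
    apply sum_le_sum
    intro v _
    by_cases hv : Bd a h v
    · rw [if_pos hv, if_pos]
      rw [hBd] at hv
      refine ⟨hv.1, lt_of_lt_of_le (lt_of_eq_of_lt ?_ hv.2) ?_⟩
      · congr!
      · apply mul_le_mul_of_nonneg_right (by linarith)
        exact div_nonneg (Nat.cast_nonneg _) (mul_nonneg hVy.le (by positivity))
    · rw [if_neg hv]
      split_ifs
      · exact (hS.nonneg k p hp v)
      · exact le_rfl
  -- Markov
  obtain ⟨cnt, hcnt⟩ : ∃ cnt : ℕ → ℝ, ∀ v, cnt v = (((Icc 1 H).filter (fun h => ¬ ((X : ℤ) < Nv y h c κ v → ∀ a ≤ A,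
        (1 - ε) * ((IPs a X).card / (V y * (k * Real.log b))) ≤ ((Rep (IPs a X) (Nv y h c κ v)).card : ℝ)))).card : ℝ) :=
    ⟨_, fun _ => rfl⟩
  have hcle : ∀ v, cnt v ≤ ∑ h ∈ Icc 1 H, ∑ a ∈ range (A + 1), (if Bd a h v then (1 : ℝ) else 0) := by
    intro v
    rw [hcnt, card_eq_sum_ones, Nat.cast_sum, sum_filter]
    apply sum_le_sum
    intro h _
    have hnn : ∀ a ∈ range (A + 1), (0 : ℝ) ≤ (if Bd a h v then (1 : ℝ) else 0) := by
      intro a _
      split_ifs <;> norm_num
    by_cases hq : (X : ℤ) < Nv y h c κ v → ∀ a ≤ A,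
        (1 - ε) * ((IPs a X).card / (V y * (k * Real.log b))) ≤ ((Rep (IPs a X) (Nv y h c κ v)).card : ℝ)
    · rw [if_neg (not_not.2 hq)]
      exact sum_nonneg hnn
    · rw [if_pos hq]
      push Not at hq
      obtain ⟨g1, a, ha, g2⟩ := hq
      have h1 : (if Bd a h v then (1 : ℝ) else 0) = 1 := by
        rw [if_pos]
        rw [hBd]
        exact ⟨g1, g2⟩
      have := single_le_sum hnn (mem_range.2 (Nat.lt_succ_of_le ha))
      rw [h1] at this
      simpa using this
  have hexp : ∑ v ∈ range (b ^ k), p v * cnt v ≤ H * ε ^ 2 := by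
    calc ∑ v ∈ range (b ^ k), p v * cnt v ≤ ∑ v ∈ range (b ^ k), ∑ h ∈ Icc 1 H, ∑ a ∈ range (A + 1), (if Bd a h v then p v else 0) := by
          apply sum_le_sum
          intro v _
          refine (mul_le_mul_of_nonneg_left (hcle v) (hS.nonneg k p hp v)).trans (le_of_eq ?_)
          rw [mul_sum]
          apply sum_congr rfl
          intro h _
          rw [mul_sum]
          apply sum_congr rfl
          intro a _
          split_ifs <;> simp
      _ = ∑ h ∈ Icc 1 H, ∑ a ∈ range (A + 1), ∑ v ∈ range (b ^ k), (if Bd a h v then p v else 0) := by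
          rw [sum_comm]
          apply sum_congr rfl
          intro h _
          rw [sum_comm]
      _ ≤ ∑ h ∈ Icc 1 H, ∑ a ∈ range (A + 1), ε' := by
          apply sum_le_sum
          intro h hh
          exact sum_le_sum fun a ha => key a ha h hh
      _ = H * ε ^ 2 := by
          rw [sum_const, sum_const, card_range, Nat.card_Icc, Nat.add_sub_cancel, hε']
          simp only [nsmul_eq_mul]
          push_cast
          field_simp
  rcases Nat.eq_zero_or_pos H with hH | hH
  · have : ∑ v ∈ range (b ^ k), (if cnt v ≤ ε * H then 0 else p v) = 0 := by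
      apply sum_eq_zero
      intro v _
      rw [if_pos]
      rw [hcnt, hH]
      simp
    simp_rw [hcnt] at this
    rw [this]
    exact hε.le
  · have hH0 : (0 : ℝ) < H := by exact_mod_cast hH
    have h1 : (∑ v ∈ range (b ^ k), (if cnt v ≤ ε * H then 0 else p v)) * (ε * H) ≤ ε * (ε * H) := by
      refine le_trans ?_ (hexp.trans (le_of_eq (by ring)))
      rw [sum_mul]
      apply sum_le_sum
      intro v _
      have hc0 : 0 ≤ cnt v := by rw [hcnt]; exact Nat.cast_nonneg _
      split_ifs with hv
      · rw [zero_mul]
        exact mul_nonneg (hS.nonneg k p hp v) hc0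
      · push Not at hv
        exact mul_le_mul_of_nonneg_left hv.le (hS.nonneg k p hp v)
    have h2 := le_of_mul_le_mul_right h1 (by positivity)
    simp_rw [hcnt] at h2
    exact h2

end Pool.Agent.Results.MP_e3f158_nt.DigitLawMultiples
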