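import Pool.Agent.Run7.h582.MC.MC4

/-!
# Representations of all the types `(a, 0)`, `a ≤ A`, at once, of multiples of a small primorial and of
# the integers near the dilates `lam x + c` of most points `x` with respect to a measure with polynomial Fourier decay

Here `x` is random with respect to an ARBITRARY finite Borel measure `μ` with bounded support whose Fourier transform is
`O (|ξ| ^ (-δ))` for some `δ > 0`: such measures can be singular and live on sets of an arbitrarily small positive Hausdorff
dimension (for example Salem sets, images of Brownian motion, the well approximable numbers). The multiples of ALL the integers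
within `D` of `lam x + c` are considered at once, for all large real `lam` and all `|c| ≤ B lam`.

The starting results treat almost all multiples (`AlmostAllMultiples`) and integers with random digits (`ExchangeableMultiples`);
later files other laws of random digits (`DigitLawMultiples`, `WordMultiples`, `DeterminantalMultiples`).

Method: the measure is replaced by finite families of real numbers with the same exponential sums (`Pool.Agent.Run7.h582.FM`);
the integer parts of the members of such a family are equidistributed modulo all the moduli which are not too large, and all their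
multiples have a thin large spectrum (with helper844's files, `Pool.Agent.Run7.h844.RP`), so that the sieve and circle method of
the starting files (`Pool.Agent.N625.PT.X1`, ..., in helper927's form for classes of distributions, `Pool.Agent.Run7.h927.SV.X7`)
apply to them (`Pool.Agent.Run7.h582.MC`).
-/

set_option autoImplicit false
set_option maxHeartbeats 4000000

open Finset MeasureTheory

namespace Pool.Agent.Results.MP_e3f158_nt.FourierDecayMultiples

/-- `μ` is a finite Borel measure with bounded support and its Fourier transform `ξ ↦ ∫ exp (i ξ t) dμ (t)` is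
`O (|ξ| ^ (-δ))` for some `δ > 0`. -/
def FourierDecay (μ : Measure ℝ) : Prop :=
  IsFiniteMeasure μ ∧ (∃ R : ℝ, μ (Set.Icc (-R) R)ᶜ = 0) ∧ ∃ C δ : ℝ, 0 < δ ∧ ∀ ξ : ℝ, ξ ≠ 0 →
    ‖∫ t : ℝ, Complex.exp (((ξ * t : ℝ) : ℂ) * Complex.I) ∂μ‖ ≤ C * |ξ| ^ (-δ)

/-- the product of `1 - 1/q` over the primes `q ≤ y` -/
noncomputable def V (y : ℕ) : ℝ := ∏ q ∈ (Icc 1 y).filter Nat.Prime, (1 - 1 / (q : ℝ))

/-- The `i`-th `a`-prime: the `(a + 1)`-fold iterate of `k ↦ k`-th prime, applied to `i`. -/
noncomputable def ip (a i : ℕ) : ℕ := Nat.iterate (fun k : ℕ => Nat.nth Nat.Prime (k - 1)) (a + 1) i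

open Classical in
/-- The `a`-primes `≤ x`. -/
noncomputable def IPs (a x : ℕ) : Finset ℕ := (Icc 1 x).filter (fun u => ∃ i : ℕ, 0 < i ∧ ip a i = u)

/-- the multiple of `q` by `h` times the product of the primes `≤ y` -/
def Nq (y h : ℕ) (q : ℤ) : ℤ := ((primorial y * h : ℕ) : ℤ) * q

/-- the `u ∈ S` such that `n - u` is prime -/
def Rep (S : Finset ℕ) (n : ℤ) : Finset ℕ := S.filter (fun u : ℕ => (n - u).toNat.Prime)

open Classical in
/-- Let `μ` be a measure with `FourierDecay`. For all `B`, `D`, `J`, `A`, `C` and `0 < ε ≤ 1` there is `K₀` such that for every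
`K₁` and all large `lam` the following holds for all `|c| ≤ B lam`, all `y` between `K₀ log log lam` and `K₁ log log lam`, all
`H ≤ log ^ J lam` and all integers `X` with `lam ≤ X log ^ C lam`, `X ≤ lam log ^ C lam`. Let `M` be the product of the primes
`≤ y`. For all `x` outside a set of `μ`-measure at most `ε` and for EVERY integer `q` within `D` of `lam x + c`, all but at most
`ε H` of the multiples `N = h M q`, `1 ≤ h ≤ H`, have the following property: if `N > X`, then `N` has for EVERY `a ≤ A` at
least `(1 - ε) #U / (V y log lam)` representations `N = u + v`, `u ∈ U` and `v` a prime, where `U` is the set of all `a`-primes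
`u ≤ X`. -/
theorem result (μ : Measure ℝ) (hμ : FourierDecay μ) : ∀ (B : ℝ) (D J A C : ℕ) (ε : ℝ), 0 < ε → ε ≤ 1 →
    ∃ K₀ : ℕ, ∀ K₁ : ℕ, ∃ Λ₀ : ℝ, 1 ≤ Λ₀ ∧ ∀ lam : ℝ, Λ₀ ≤ lam → ∀ c : ℝ, |c| ≤ B * lam →
    ∀ y : ℕ, K₀ * Real.log (Real.log lam) ≤ y → y ≤ K₁ * Real.log (Real.log lam) →
    ∀ H : ℕ, (H : ℝ) ≤ Real.log lam ^ J → ∀ X : ℕ, lam ≤ X * Real.log lam ^ C → (X : ℝ) ≤ lam * Real.log lam ^ C →
      μ.real {x | ¬ ∀ q : ℤ, |(q : ℝ) - (lam * x + c)| ≤ D →
        (((Icc 1 H).filter (fun h => ¬ ((X : ℤ) < Nq y h q → ∀ a ≤ A,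
          (1 - ε) * ((IPs a X).card / (V y * Real.log lam)) ≤ ((Rep (IPs a X) (Nq y h q)).card : ℝ)))).card : ℝ) ≤
            ε * H} ≤ ε := by
  intro B D J A C ε hε hε1
  obtain ⟨K₀, h0⟩ := Pool.Agent.Run7.h582.MC.ae_types μ hμ IPs (fun a => 2 * (a + 1) + 1)
    Pool.Agent.N625.PT.IPs_sub Pool.Agent.N625.PT.IPs_prime (fun C a => Pool.Agent.N625.PT.ip_dense 2 C a le_rfl)
    B D J A C ε hε hε1
  refine ⟨K₀, fun K₁ => ?_⟩
  obtain ⟨Λ₀, hΛ1, h0⟩ := h0 K₁
  refine ⟨Λ₀, hΛ1, fun lam hlam c hc y hy1 hy2 H hHJ X hX1 hX2 => ?_⟩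
  refine le_trans (le_of_eq ?_) (h0 lam hlam c hc y hy1 hy2 H hHJ X hX1 hX2)
  unfold Rep Nq V Pool.Agent.H373R2.T7.Vz
  congr!

end Pool.Agent.Results.MP_e3f158_nt.FourierDecayMultiples
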