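import Pool.Agent.N625.PT.X8
import Pool.Agent.Run7.h672.XC.X7

/-!
# Simultaneous representations of all types `(a, 0)`, `a ≤ A`, of almost all multiples of random multiples of a small primorial, for the random integers written by independent random words

The definitions `len`, `Words`, `cat`, `noRest`, `cutWord`, `WordLaw` are in `Pool.Agent.Run7.h672.CC.Defs`.

Method: a strong renewal theorem for the places at which a word ends; between two such places, at a positive proportion of
the places, two words which do not commute can be exchanged (`w w'` and `w' w` have the same length, the same probability,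
and different digits), whatever the language is; hence the characteristic function is exponentially small in the number of the
places at which the frequency is not close to a rational number with a small denominator (`Pool.Agent.Run7.h672.CC`). With this
input the sieve and the circle method of the starting library for exchangeable blocks (`Pool.Agent.N625.PT`) go through
(`Pool.Agent.Run7.h672.XC`).
-/

set_option autoImplicit false

open Finset
open Pool.Agent.Run7.h672.CC

namespace Pool.Agent.Results.MP_e3f158_nt.WordMultiples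

/-- The `i`-th `a`-prime: the `(a + 1)`-fold iterate of `k ↦ k`-th prime, applied to `i`. -/
noncomputable def ip (a i : ℕ) : ℕ := Nat.iterate (fun k : ℕ => Nat.nth Nat.Prime (k - 1)) (a + 1) i

open Classical in
/-- The `a`-primes `≤ x`. -/
noncomputable def IPs (a x : ℕ) : Finset ℕ := (Icc 1 x).filter (fun u => ∃ i : ℕ, 0 < i ∧ ip a i = u)

/-- the product of `1 - 1/q` over the primes `q ≤ y` -/
noncomputable def V (y : ℕ) : ℝ := ∏ q ∈ (Icc 1 y).filter Nat.Prime, (1 - 1 / (q : ℝ))

/-- the multiple of the product of the primes `≤ y` given by the integers `h` and `c + κ v` -/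
def Nv (y h : ℕ) (c κ : ℤ) (v : ℕ) : ℤ := ((primorial y * h : ℕ) : ℤ) * (c + κ * v)

/-- the `u ∈ S` such that `n - u` is prime -/
def Rep (S : Finset ℕ) (n : ℤ) : Finset ℕ := S.filter (fun u : ℕ => (n - u).toNat.Prime)

open Classical in
/-- Let `W` be the law of a random word in base `b` (`Words b W`: any language, finite or infinite, lengths with an exponential
moment and without a common divisor, and two words which do not commute), and let `v < b ^ k` be the random integer whose
digits are written by independent random words with the law `W`, conditioned on the total length `k`, or cut after `k`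
digits (`WordLaw b W k p`). Let `y` be between `K₀ log k` and `K₁ log k`, `M` the product of the primes `≤ y`, and `X` an integer with
`b ^ k ≤ X k ^ C`, `X ≤ b ^ k k ^ C`. Then for all `|c| ≤ B b ^ k` and all `H ≤ k ^ J`, with a probability of at least
`1 - ε` all but at most `ε H` of the multiples `N = h M (c + κ v)`, `1 ≤ h ≤ H`, have the following property: if `N > X`, then
`N` has for EVERY `a ≤ A` at least `(1 - ε) #U / (V y log b ^ k)` representations `N = u + q`, `u ∈ U` and `q` a prime, where
`U` is the set of all `a`-primes `u ≤ X`. -/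
theorem result : ∀ (b : ℕ) (W : ℕ → ℕ → ℝ), Words b W → ∀ κ : ℤ, κ ≠ 0 →
    ∀ (B J A C : ℕ) (ε : ℝ), 0 < ε → ε ≤ 1 → ∃ K₀ : ℕ, ∀ K₁ : ℕ, ∃ k₀ : ℕ, ∀ k : ℕ, k₀ ≤ k →
    ∀ p : ℕ → ℝ, WordLaw b W k p → ∀ y : ℕ, K₀ * Real.log k ≤ y → y ≤ K₁ * Real.log k →
    ∀ c : ℤ, |c| ≤ B * (b : ℤ) ^ k → ∀ H : ℕ, H ≤ k ^ J → ∀ X : ℕ, b ^ k ≤ X * k ^ C → X ≤ b ^ k * k ^ C →
      ∑ v ∈ range (b ^ k), (if (((Icc 1 H).filter (fun h => ¬ ((X : ℤ) < Nv y h c κ v → ∀ a ≤ A,
        (1 - ε) * ((IPs a X).card / (V y * (k * Real.log b))) ≤ ((Rep (IPs a X) (Nv y h c κ v)).card : ℝ)))).card : ℝ) ≤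
          ε * H then 0 else p v) ≤ ε := by
  intro b W hW κ hκ B J A C ε hε hε1
  obtain ⟨L, T, hcls⟩ := Pool.Agent.Run7.h672.XC.word_rcls hW
  have hb := hW.two
  obtain ⟨ε', hε'⟩ : ∃ ε' : ℝ, ε' = ε ^ 2 / (A + 1) := ⟨_, rfl⟩
  have hA : (0 : ℝ) < A + 1 := by positivity
  have hA1 : (1 : ℝ) ≤ A + 1 := by
    have : (0 : ℝ) ≤ A := Nat.cast_nonneg A
    linarith
  have he0 : 0 < ε' := by rw [hε']; positivity
  have hε2 : ε ^ 2 ≤ ε := by nlinarith
  have hee : ε' ≤ ε := by
    rw [hε']
    exact (div_le_self (by positivity) hA1).trans hε2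
  have h := fun a : ℕ => Pool.Agent.Run7.h672.XC.dense_sum hcls κ hκ B J (2 * (a + 1) + 1) C ε' he0 (hee.trans hε1)
  choose K₀ hK₀ using h
  refine ⟨(range (A + 1)).sup K₀, fun K₁ => ?_⟩
  have h := fun a : ℕ => hK₀ a K₁
  choose x₀ hx₀ using h
  have h := fun a : ℕ => Pool.Agent.N625.PT.ip_dense b C a hb
  choose x₁ hx₁ using h
  refine ⟨max (max ((range (A + 1)).sup x₀) ((range (A + 1)).sup x₁)) 1, fun k hk p hp y hy1 hy2 c hc H hHJ X hX1 hX2 => ?_⟩
  have b1 : (range (A + 1)).sup x₀ ≤ k := by omega
  have b2 : (range (A + 1)).sup x₁ ≤ k := by omega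
  have b3 : 1 ≤ k := by omega
  have hkr : (1 : ℝ) ≤ k := by exact_mod_cast b3
  have hlk : 0 ≤ Real.log k := Real.log_nonneg hkr
  have hb1 : (1 : ℝ) < b := by exact_mod_cast (by omega : 1 < b)
  have hlogb : 0 < Real.log b := Real.log_pos hb1
  have hflex := hp
  have hVy : 0 < V y := Pool.Agent.H373R2.T7.Vz_pos y
  obtain ⟨Bd, hBd⟩ : ∃ Bd : ℕ → ℕ → ℕ → Prop, ∀ a h v, Bd a h v ↔ ((X : ℤ) < Nv y h c κ v ∧
    ((Rep (IPs a X) (Nv y h c κ v)).card : ℝ) < (1 - ε) * ((IPs a X).card / (V y * (k * Real.log b)))) := ⟨_, fun _ _ _ => Iff.rfl⟩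
  have key : ∀ a ∈ range (A + 1), ∀ h ∈ Icc 1 H, ∑ v ∈ range (b ^ k), (if Bd a h v then p v else 0) ≤ ε' := by
    intro a ha h hh
    rw [mem_Icc] at hh
    have h1 := hx₀ a k ((Finset.le_sup ha).trans b1) p hflex y (by
      refine le_trans ?_ hy1
      apply mul_le_mul_of_nonneg_right _ hlk
      exact_mod_cast Finset.le_sup ha) hy2 c hc h hh.1 (hh.2.trans hHJ) X hX1 hX2 (IPs a X)
      (Pool.Agent.N625.PT.IPs_sub a X) (Pool.Agent.N625.PT.IPs_prime a X) (hx₁ a k ((Finset.le_sup ha).trans b2) X hX1 hX2)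
    refine le_trans ?_ h1
    apply sum_le_sum
    intro v _
    by_cases hv : Bd a h v
    · rw [if_pos hv, if_pos]
      rw [hBd] at hv
      refine ⟨hv.1, lt_of_lt_of_le (lt_of_eq_of_lt ?_ hv.2) ?_⟩
      · congr!
      · apply mul_le_mul_of_nonneg_right (by linarith)
        exact div_nonneg (Nat.cast_nonneg _) (mul_nonneg hVy.le (by positivity))
    · rw [if_neg hv]
      split_ifs
      · exact law_nonneg hW hp v
      · exact le_rfl
  -- Markov
  obtain ⟨cnt, hcnt⟩ : ∃ cnt : ℕ → ℝ, ∀ v, cnt v = (((Icc 1 H).filter (fun h => ¬ ((X : ℤ) < Nv y h c κ v → ∀ a ≤ A,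
        (1 - ε) * ((IPs a X).card / (V y * (k * Real.log b))) ≤ ((Rep (IPs a X) (Nv y h c κ v)).card : ℝ)))).card : ℝ) :=
    ⟨_, fun _ => rfl⟩
  have hcle : ∀ v, cnt v ≤ ∑ h ∈ Icc 1 H, ∑ a ∈ range (A + 1), (if Bd a h v then (1 : ℝ) else 0) := by
    intro v
    rw [hcnt, card_eq_sum_ones, Nat.cast_sum, sum_filter]
    apply sum_le_sum
    intro h _
    have hnn : ∀ a ∈ range (A + 1), (0 : ℝ) ≤ (if Bd a h v then (1 : ℝ) else 0) := by
      intro a _
      split_ifs <;> norm_num
    by_cases hq : (X : ℤ) < Nv y h c κ v → ∀ a ≤ A,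
        (1 - ε) * ((IPs a X).card / (V y * (k * Real.log b))) ≤ ((Rep (IPs a X) (Nv y h c κ v)).card : ℝ)
    · rw [if_neg (not_not.2 hq)]
      exact sum_nonneg hnn
    · rw [if_pos hq]
      push Not at hq
      obtain ⟨g1, a, ha, g2⟩ := hq
      have h1 : (if Bd a h v then (1 : ℝ) else 0) = 1 := by
        rw [if_pos]
        rw [hBd]
        exact ⟨g1, g2⟩
      have := single_le_sum hnn (mem_range.2 (Nat.lt_succ_of_le ha))
      rw [h1] at this
      simpa using this
  have hexp : ∑ v ∈ range (b ^ k), p v * cnt v ≤ H * ε ^ 2 := by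
    calc ∑ v ∈ range (b ^ k), p v * cnt v ≤ ∑ v ∈ range (b ^ k), ∑ h ∈ Icc 1 H, ∑ a ∈ range (A + 1), (if Bd a h v then p v else 0) := by
          apply sum_le_sum
          intro v _
          refine (mul_le_mul_of_nonneg_left (hcle v) (law_nonneg hW hp v)).trans (le_of_eq ?_)
          rw [mul_sum]
          apply sum_congr rfl
          intro h _
          rw [mul_sum]
          apply sum_congr rfl
          intro a _
          split_ifs <;> simp
      _ = ∑ h ∈ Icc 1 H, ∑ a ∈ range (A + 1), ∑ v ∈ range (b ^ k), (if Bd a h v then p v else 0) := by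
          rw [sum_comm]
          apply sum_congr rfl
          intro h _
          rw [sum_comm]
      _ ≤ ∑ h ∈ Icc 1 H, ∑ a ∈ range (A + 1), ε' := by
          apply sum_le_sum
          intro h hh
          exact sum_le_sum fun a ha => key a ha h hh
      _ = H * ε ^ 2 := by
          rw [sum_const, sum_const, card_range, Nat.card_Icc, Nat.add_sub_cancel, hε']
          simp only [nsmul_eq_mul]
          push_cast
          field_simp
  rcases Nat.eq_zero_or_pos H with hH | hH
  · have : ∑ v ∈ range (b ^ k), (if cnt v ≤ ε * H then 0 else p v) = 0 := by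
      apply sum_eq_zero
      intro v _
      rw [if_pos]
      rw [hcnt, hH]
      simp
    simp_rw [hcnt] at this
    rw [this]
    exact hε.le
  · have hH0 : (0 : ℝ) < H := by exact_mod_cast hH
    have h1 : (∑ v ∈ range (b ^ k), (if cnt v ≤ ε * H then 0 else p v)) * (ε * H) ≤ ε * (ε * H) := by
      refine le_trans ?_ (hexp.trans (le_of_eq (by ring)))
      rw [sum_mul]
      apply sum_le_sum
      intro v _
      have hc0 : 0 ≤ cnt v := by rw [hcnt]; exact Nat.cast_nonneg _
      split_ifs with hv
      · rw [zero_mul]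
        exact mul_nonneg (law_nonneg hW hp v) hc0
      · push Not at hv
        exact mul_le_mul_of_nonneg_left hv.le (law_nonneg hW hp v)
    have h2 := le_of_mul_le_mul_right h1 (by positivity)
    simp_rw [hcnt] at h2
    exact h2

end Pool.Agent.Results.MP_e3f158_nt.WordMultiples
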